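import Pool.Agent.N662.FP.Stm2

/-!
# Project FL part 2, leaf FM/EXT (helper657): extension of the norm from lattice points to the plane
-/

set_option autoImplicit false

open Filter Set Topology

namespace Pool.Agent.N657.FM

open Pool.Agent.N662.FP

/-- lattice point close to `(n + 1) x` -/
noncomputable def lp (x : ℝ × ℝ) (n : ℕ) : ℤ × ℤ := (⌊((n : ℝ) + 1) * x.1⌋, ⌊((n : ℝ) + 1) * x.2⌋)

theorem lim1 (x : ℝ) :
    Tendsto (fun n : ℕ => (1 / ((n : ℝ) + 1)) * ((⌊((n : ℝ) + 1) * x⌋ : ℤ) : ℝ)) atTop (𝓝 x) := by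
  have h1 : Tendsto (fun n : ℕ => x - 1 / ((n : ℝ) + 1)) atTop (𝓝 x) := by
    have := (tendsto_const_nhds (x := x) (f := (atTop : Filter ℕ))).sub
      (tendsto_one_div_add_atTop_nhds_zero_nat (𝕜 := ℝ))
    simpa using this
  refine tendsto_of_tendsto_of_tendsto_of_le_of_le h1 tendsto_const_nhds ?_ ?_
  · intro n
    have hn : (0 : ℝ) < (n : ℝ) + 1 := by positivity
    have h2 := Int.sub_one_lt_floor (((n : ℝ) + 1) * x)
    show x - 1 / ((n : ℝ) + 1) ≤ (1 / ((n : ℝ) + 1)) * ((⌊((n : ℝ) + 1) * x⌋ : ℤ) : ℝ)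
    have h3 : x - 1 / ((n : ℝ) + 1) = (1 / ((n : ℝ) + 1)) * (((n : ℝ) + 1) * x - 1) := by
      field_simp
    rw [h3]
    exact mul_le_mul_of_nonneg_left h2.le (by positivity)
  · intro n
    have hn : (0 : ℝ) < (n : ℝ) + 1 := by positivity
    have h2 := Int.floor_le (((n : ℝ) + 1) * x)
    show (1 / ((n : ℝ) + 1)) * ((⌊((n : ℝ) + 1) * x⌋ : ℤ) : ℝ) ≤ x
    have h3 : x = (1 / ((n : ℝ) + 1)) * (((n : ℝ) + 1) * x) := by
      field_simp
    conv_rhs => rw [h3]
    exact mul_le_mul_of_nonneg_left h2 (by positivity)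

theorem lim2 (x : ℝ × ℝ) :
    Tendsto (fun n : ℕ => (1 / ((n : ℝ) + 1)) • em (lp x n)) atTop (𝓝 x) := by
  have := (lim1 x.1).prodMk_nhds (lim1 x.2)
  exact this

theorem em_add (z w : ℤ × ℤ) : em (z + w) = em z + em w := by
  ext <;> simp [Pool.Agent.N662.FP.em]

theorem em_neg (z : ℤ × ℤ) : em (-z) = -em z := by
  ext <;> simp [Pool.Agent.N662.FP.em]

theorem t_EXT : S_EXT := by
  intro μ c0 hc0 hom cont sub sym low
  have hc : ∀ n : ℕ, (0 : ℝ) ≤ 1 / ((n : ℝ) + 1) := fun n => by positivity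
  have hadd : ∀ x y : ℝ × ℝ, μ (x + y) ≤ μ x + μ y := by
    intro x y
    have h1 : Tendsto (fun n : ℕ => μ ((1 / ((n : ℝ) + 1)) • em (lp x n) +
        (1 / ((n : ℝ) + 1)) • em (lp y n))) atTop (𝓝 (μ (x + y))) :=
      (cont.tendsto _).comp ((lim2 x).add (lim2 y))
    have h2 : Tendsto (fun n : ℕ => μ ((1 / ((n : ℝ) + 1)) • em (lp x n)) +
        μ ((1 / ((n : ℝ) + 1)) • em (lp y n))) atTop (𝓝 (μ x + μ y)) :=
      ((cont.tendsto _).comp (lim2 x)).add ((cont.tendsto _).comp (lim2 y))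
    refine le_of_tendsto_of_tendsto' h1 h2 fun n => ?_
    rw [← smul_add, ← em_add, hom _ _ (hc n), hom _ _ (hc n), hom _ _ (hc n), ← mul_add]
    exact mul_le_mul_of_nonneg_left (sub _ _) (hc n)
  have hneg : ∀ x : ℝ × ℝ, μ (-x) = μ x := by
    intro x
    have h1 : Tendsto (fun n : ℕ => μ (-((1 / ((n : ℝ) + 1)) • em (lp x n)))) atTop
        (𝓝 (μ (-x))) := (cont.tendsto _).comp (lim2 x).neg
    have h2 : Tendsto (fun n : ℕ => μ ((1 / ((n : ℝ) + 1)) • em (lp x n))) atTop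
        (𝓝 (μ x)) := (cont.tendsto _).comp (lim2 x)
    refine tendsto_nhds_unique h1 (h2.congr fun n => ?_)
    rw [← smul_neg, ← em_neg, hom _ _ (hc n), hom _ _ (hc n), sym]
  have hlow : ∀ x : ℝ × ℝ, c0 * max |x.1| |x.2| ≤ μ x := by
    intro x
    have hm : Continuous fun y : ℝ × ℝ => c0 * max |y.1| |y.2| :=
      continuous_const.mul ((continuous_abs.comp continuous_fst).max
        (continuous_abs.comp continuous_snd))
    have h1 : Tendsto (fun n : ℕ => c0 * max |((1 / ((n : ℝ) + 1)) • em (lp x n)).1|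
        |((1 / ((n : ℝ) + 1)) • em (lp x n)).2|) atTop
        (𝓝 (c0 * max |x.1| |x.2|)) := (hm.tendsto x).comp (lim2 x)
    have h2 : Tendsto (fun n : ℕ => μ ((1 / ((n : ℝ) + 1)) • em (lp x n))) atTop
        (𝓝 (μ x)) := (cont.tendsto _).comp (lim2 x)
    refine le_of_tendsto_of_tendsto' h1 h2 fun n => ?_
    rw [hom _ _ (hc n)]
    have h3 := mul_le_mul_of_nonneg_left (low (lp x n)) (hc n)
    refine le_trans (le_of_eq ?_) h3
    simp only [Prod.smul_fst, Prod.smul_snd, smul_eq_mul, abs_mul, abs_of_nonneg (hc n),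
      Pool.Agent.N662.FP.em]
    rw [← mul_max_of_nonneg _ _ (hc n)]
    ring
  refine ⟨Seminorm.of μ hadd ?_, fun x => rfl, ?_⟩
  · intro a x
    rw [Real.norm_eq_abs]
    rcases le_total 0 a with ha | ha
    · rw [abs_of_nonneg ha, hom x a ha]
    · rw [abs_of_nonpos ha, ← hneg, ← neg_smul, hom x (-a) (by linarith)]
  · intro x hx
    have h1 : μ x = 0 := hx
    have h2 := hlow x
    rw [h1] at h2
    have h3 : max |x.1| |x.2| ≤ 0 := by
      by_contra h
      push Not at h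
      have := mul_pos hc0 h
      linarith
    have h4 : |x.1| ≤ 0 := (le_max_left _ _).trans h3
    have h5 : |x.2| ≤ 0 := (le_max_right _ _).trans h3
    exact Prod.ext (abs_nonpos_iff.1 h4) (abs_nonpos_iff.1 h5)

end Pool.Agent.N657.FM
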